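import Pool.Agent.Run7.h793.FlatFinal2

/-!
Null 2-type surfaces with flat normal connection in Euclidean four-space have constant mean
curvature.
-/

namespace Pool.Agent.Results.MP_f83c3a_gt.FlatCMC

open Run7.h793

/-- Let `x : Ω → E4` be a smoothly immersed connected surface of null 2-type with flat normal
connection. Then `|H|` is constant. -/
theorem result (Ω : Set (ℝ × ℝ)) (x : ℝ × ℝ → E4) (hsurf : IsImmersedSurface Ω x)
    (hnull : IsNullTwoType Ω x) (hflat : HasFlatNormalConnection Ω x) :
    ∃ c : ℝ, ∀ p ∈ Ω, ‖meanCurvature x p‖ = c :=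
  flat_cmc hsurf hnull hflat

end Pool.Agent.Results.MP_f83c3a_gt.FlatCMC
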